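import Pool.Agent.H254Z.MF.Main

/-!
# None of the eight principles WF^x_{sk} implies the dual Cantor-Schroeder-Bernstein statement
-/

set_option autoImplicit false

namespace Pool.Agent.Results.MP_831107_lc.ASurjectiveCases

open Pool.Agent.H164Z.Bspt Pool.Agent.H254Z.MF

/-- There is a model of ZF in which the principles WF^i_{sk} and WF^s_{sk} hold for
`k = 1, 2, 3, 4` and the dual Cantor-Schroeder-Bernstein statement fails. -/
theorem result : ∃ (M : Type) (E : M → M → Prop), IsZF E ∧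
    (WF1 E (LeI E) ∧ WF2 E (LeI E) ∧ WF3 E (LeI E) ∧ WFis4 E) ∧
    (WF1 E (LeS E) ∧ WF2 E (LeS E) ∧ WF3 E (LeS E) ∧ WFss4 E) ∧ ¬ DualCSB E := by
  obtain ⟨M, E, h1, h2, h3, h4, -⟩ := main
  exact ⟨M, E, h1, h2, h3, h4⟩

end Pool.Agent.Results.MP_831107_lc.ASurjectiveCases
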